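import Pool.Agent.PT57.BM

set_option autoImplicit false

/-!
# GE51/PL: log-concavity of the exponential slice integral
-/

open MeasureTheory Set
open scoped Pointwise ENNReal

namespace Pool.GE51

/-- `∫ e^(-τ) vol (A ∩ {x ≤ τ}) dτ` -/
noncomputable def KK {n : ℕ} (A : Set (Fin n → ℝ)) : ℝ≥0∞ :=
  ∫⁻ τ : ℝ, ENNReal.ofReal (Real.exp (-τ)) * volume (A ∩ {x | ∀ i, x i ≤ τ})

/-- one dimensional Prekopa-Leindler -/
theorem pl_one {F G H : ℝ → ℝ} (hF : Measurable F) (hG : Measurable G) (hH : Measurable H)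
    (hF0 : ∀ s, 0 ≤ F s) (hG0 : ∀ s, 0 ≤ G s) (hH0 : ∀ s, 0 ≤ H s)
    (hFb : BddAbove (range F)) (hGb : BddAbove (range G))
    (hFGH : ∀ s t, F s * G t ≤ H ((s + t) / 2) ^ 2) :
    (∫⁻ s, ENNReal.ofReal (F s)) * (∫⁻ s, ENNReal.ofReal (G s)) ≤
      (∫⁻ s, ENNReal.ofReal (H s)) ^ 2 := by
  set a := ⨆ s, F s with ha
  set b := ⨆ s, G s with hb
  have hFa : ∀ s, F s ≤ a := fun s => le_ciSup hFb s
  have hGb' : ∀ s, G s ≤ b := fun s => le_ciSup hGb s
  have ha0 : 0 ≤ a := (hF0 0).trans (hFa 0)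
  have hb0 : 0 ≤ b := (hG0 0).trans (hGb' 0)
  rcases ha0.eq_or_lt with h | hapos
  · have : ∀ s, F s = 0 := fun s => le_antisymm ((hFa s).trans h.symm.le) (hF0 s)
    simp [this]
  rcases hb0.eq_or_lt with h | hbpos
  · have : ∀ s, G s = 0 := fun s => le_antisymm ((hGb' s).trans h.symm.le) (hG0 s)
    simp [this]
  set r := Real.sqrt (a * b) with hr
  have hrpos : 0 < r := Real.sqrt_pos.mpr (mul_pos hapos hbpos)
  have hr2 : r ^ 2 = a * b := Real.sq_sqrt (mul_pos hapos hbpos).le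
  have key := PT57.level_one (F := fun s => F s / a) (G := fun s => G s / b)
    (H := fun s => H s / r) (hF.div_const _) (hG.div_const _) (hH.div_const _)
    (fun s => div_nonneg (hF0 s) ha0) (fun s => div_nonneg (hG0 s) hb0)
    (fun s => div_nonneg (hH0 s) hrpos.le)
    (fun s => by rw [div_le_one hapos]; exact hFa s)
    (fun s => by rw [div_le_one hbpos]; exact hGb' s)
    (fun c hc => by
      obtain ⟨s, hs⟩ := exists_lt_of_lt_ciSup (show c * a < ⨆ s, F s by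
        rw [← ha]; nlinarith)
      exact ⟨s, by rw [lt_div_iff₀ hapos]; exact hs⟩)
    (fun c hc => by
      obtain ⟨s, hs⟩ := exists_lt_of_lt_ciSup (show c * b < ⨆ s, G s by
        rw [← hb]; nlinarith)
      exact ⟨s, by rw [lt_div_iff₀ hbpos]; exact hs⟩)
    (fun s t => by
      apply PT57.min_le_of_mul_le_sq (div_nonneg (hF0 s) ha0) (div_nonneg (hG0 t) hb0)
        (div_nonneg (hH0 _) hrpos.le)
      rw [div_mul_div_comm, div_pow, hr2]
      exact div_le_div_of_nonneg_right (hFGH s t) (mul_pos hapos hbpos).le)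
  have e : ∀ (c : ℝ) (hc : 0 < c) (F : ℝ → ℝ), ∫⁻ s, ENNReal.ofReal (F s / c) =
      ENNReal.ofReal (1 / c) * ∫⁻ s, ENNReal.ofReal (F s) := by
    intro c hc F
    rw [← lintegral_const_mul' _ _ ENNReal.ofReal_ne_top]
    apply lintegral_congr
    intro s
    rw [← ENNReal.ofReal_mul (by positivity)]
    congr 1
    field_simp
  rw [e a hapos, e b hbpos, e r hrpos] at key
  by_cases hHt : (∫⁻ s, ENNReal.ofReal (H s)) = ⊤
  · rw [hHt]; simp
  set I := ∫⁻ s, ENNReal.ofReal (F s) with hI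
  set J := ∫⁻ s, ENNReal.ofReal (G s) with hJ
  set L := ∫⁻ s, ENNReal.ofReal (H s) with hL
  have hR : 2 * (ENNReal.ofReal (1 / r) * L) ≠ ⊤ :=
    ENNReal.mul_ne_top (by simp) (ENNReal.mul_ne_top ENNReal.ofReal_ne_top hHt)
  have hI' : ENNReal.ofReal (1 / a) * I ≠ ⊤ := fun h => hR (by
    rw [h, top_add] at key; exact top_le_iff.mp key)
  have hJ' : ENNReal.ofReal (1 / b) * J ≠ ⊤ := fun h => hR (by
    rw [h, add_top] at key; exact top_le_iff.mp key)
  have hIt : I ≠ ⊤ := fun h => hI' (by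
    rw [h, ENNReal.mul_top]
    simp only [ne_eq, ENNReal.ofReal_eq_zero, not_le]
    positivity)
  have hJt : J ≠ ⊤ := fun h => hJ' (by
    rw [h, ENNReal.mul_top]
    simp only [ne_eq, ENNReal.ofReal_eq_zero, not_le]
    positivity)
  have k2 : I.toReal / a + J.toReal / b ≤ 2 * (L.toReal / r) := by
    have := ENNReal.toReal_mono hR key
    rw [ENNReal.toReal_add hI' hJ', ENNReal.toReal_mul, ENNReal.toReal_mul, ENNReal.toReal_mul,
      ENNReal.toReal_mul, ENNReal.toReal_ofReal (by positivity),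
      ENNReal.toReal_ofReal (by positivity), ENNReal.toReal_ofReal (by positivity)] at this
    simp only [ENNReal.toReal_ofNat] at this
    calc I.toReal / a + J.toReal / b = 1 / a * I.toReal + 1 / b * J.toReal := by ring
      _ ≤ 2 * (1 / r * L.toReal) := this
      _ = 2 * (L.toReal / r) := by ring
  have k3 : I.toReal * J.toReal ≤ L.toReal ^ 2 := by
    have h1 : 0 ≤ I.toReal / a := by positivity
    have h2 : 0 ≤ J.toReal / b := by positivity
    have h3 : (I.toReal / a) * (J.toReal / b) ≤ (L.toReal / r) ^ 2 := by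
      have h4 : (I.toReal / a + J.toReal / b) ^ 2 ≤ (2 * (L.toReal / r)) ^ 2 :=
        pow_le_pow_left₀ (add_nonneg h1 h2) k2 2
      have h5 := sq_nonneg (I.toReal / a - J.toReal / b)
      linarith
    rw [div_mul_div_comm, div_pow, hr2] at h3
    rwa [div_le_div_iff_of_pos_right (mul_pos hapos hbpos)] at h3
  calc I * J = ENNReal.ofReal (I.toReal * J.toReal) := by
        rw [ENNReal.ofReal_mul ENNReal.toReal_nonneg, ENNReal.ofReal_toReal hIt,
          ENNReal.ofReal_toReal hJt]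
    _ ≤ ENNReal.ofReal (L.toReal ^ 2) := ENNReal.ofReal_le_ofReal k3
    _ = L ^ 2 := by
        rw [ENNReal.ofReal_pow ENNReal.toReal_nonneg, ENNReal.ofReal_toReal hHt]

theorem isCompact_slice {n : ℕ} {A : Set (Fin n → ℝ)} (hA : IsClosed A)
    (hA0 : ∀ x ∈ A, ∀ i, 0 ≤ x i) (τ : ℝ) : IsCompact (A ∩ {x | ∀ i, x i ≤ τ}) := by
  have h1 : A ∩ {x | ∀ i, x i ≤ τ} = A ∩ Icc (fun _ => 0) (fun _ => τ) := by
    ext x
    constructor
    · rintro ⟨hx, hx'⟩
      exact ⟨hx, fun i => hA0 x hx i, hx'⟩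
    · rintro ⟨hx, hx'⟩
      exact ⟨hx, hx'.2⟩
  rw [h1]
  exact isCompact_Icc.inter_left hA

theorem vol_slice_le {n : ℕ} {A : Set (Fin n → ℝ)}
    (hA0 : ∀ x ∈ A, ∀ i, 0 ≤ x i) (τ : ℝ) :
    volume (A ∩ {x | ∀ i, x i ≤ τ}) ≤ ENNReal.ofReal τ ^ n := by
  calc volume (A ∩ {x | ∀ i, x i ≤ τ}) ≤ volume (Icc (fun _ : Fin n => (0:ℝ)) (fun _ => τ)) :=
        measure_mono fun x hx => ⟨fun i => hA0 x hx.1 i, hx.2⟩
    _ = ENNReal.ofReal τ ^ n := by
        rw [Real.volume_Icc_pi]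
        simp

theorem measurable_slice {n : ℕ} (A : Set (Fin n → ℝ)) :
    Measurable fun τ : ℝ => volume (A ∩ {x | ∀ i, x i ≤ τ}) := by
  apply Monotone.measurable
  intro s t hst
  exact measure_mono fun x hx => ⟨hx.1, fun i => (hx.2 i).trans hst⟩

theorem exp_pow_le {n : ℕ} {τ : ℝ} (h : 0 ≤ τ) : Real.exp (-τ) * τ ^ n ≤ n.factorial := by
  have h1 : τ ^ n / n.factorial ≤ Real.exp τ := Real.pow_div_factorial_le_exp τ h n
  have h2 : (0 : ℝ) < n.factorial := by exact_mod_cast n.factorial_pos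
  rw [Real.exp_neg, inv_mul_le_iff₀ (Real.exp_pos _)]
  rw [div_le_iff₀ h2] at h1
  linarith

/-- **midpoint log-concavity** -/
theorem KK_mid {n : ℕ} (hn0 : 0 < n) {A B C : Set (Fin n → ℝ)} (hA : IsClosed A) (hB : IsClosed B)
    (hC : IsClosed C)
    (hA0 : ∀ x ∈ A, ∀ i, 0 ≤ x i) (hB0 : ∀ x ∈ B, ∀ i, 0 ≤ x i) (hC0 : ∀ x ∈ C, ∀ i, 0 ≤ x i)
    (hABC : ∀ x ∈ A, ∀ y ∈ B, (fun i => (x i + y i) / 2) ∈ C) :
    KK A * KK B ≤ KK C ^ 2 := by
  have hfin : ∀ {A : Set (Fin n → ℝ)}, (∀ x ∈ A, ∀ i, 0 ≤ x i) → ∀ τ : ℝ,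
      volume (A ∩ {x | ∀ i, x i ≤ τ}) ≠ ⊤ := fun hA0 τ =>
    ((vol_slice_le hA0 τ).trans_lt (ENNReal.pow_lt_top ENNReal.ofReal_lt_top)).ne
  set Fn : Set (Fin n → ℝ) → ℝ → ℝ := fun A τ =>
    Real.exp (-τ) * (volume (A ∩ {x | ∀ i, x i ≤ τ})).toReal with hFn
  have hKK : ∀ {A : Set (Fin n → ℝ)}, (∀ x ∈ A, ∀ i, 0 ≤ x i) →
      KK A = ∫⁻ s, ENNReal.ofReal (Fn A s) := by
    intro A hA0
    unfold KK
    apply lintegral_congr
    intro τ
    simp only [hFn]
    rw [ENNReal.ofReal_mul (Real.exp_pos _).le, ENNReal.ofReal_toReal (hfin hA0 τ)]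
  have hmeas : ∀ A : Set (Fin n → ℝ), Measurable (Fn A) := fun A =>
    (Real.measurable_exp.comp measurable_neg).mul (measurable_slice A).ennreal_toReal
  have hnn : ∀ (A : Set (Fin n → ℝ)) (s : ℝ), 0 ≤ Fn A s := fun A s =>
    mul_nonneg (Real.exp_pos _).le ENNReal.toReal_nonneg
  have hbd : ∀ {A : Set (Fin n → ℝ)}, (∀ x ∈ A, ∀ i, 0 ≤ x i) → BddAbove (range (Fn A)) := by
    intro A hA0
    refine ⟨max n.factorial 1, ?_⟩
    rintro _ ⟨τ, rfl⟩
    simp only [hFn]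
    have h1 : (volume (A ∩ {x | ∀ i, x i ≤ τ})).toReal ≤ (max τ 0) ^ n := by
      calc (volume (A ∩ {x | ∀ i, x i ≤ τ})).toReal ≤ (ENNReal.ofReal τ ^ n).toReal :=
            ENNReal.toReal_mono (ENNReal.pow_ne_top ENNReal.ofReal_ne_top) (vol_slice_le hA0 τ)
        _ = (max τ 0) ^ n := by rw [ENNReal.toReal_pow, ENNReal.toReal_ofReal']
    rcases le_total 0 τ with h | h
    · rw [max_eq_left h] at h1
      calc Real.exp (-τ) * (volume (A ∩ {x | ∀ i, x i ≤ τ})).toReal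
          ≤ Real.exp (-τ) * τ ^ n := mul_le_mul_of_nonneg_left h1 (Real.exp_pos _).le
        _ ≤ n.factorial := exp_pow_le h
        _ ≤ _ := le_max_left _ _
    · rcases Nat.eq_zero_or_pos n with rfl | hn
      · exact absurd hn0 (lt_irrefl 0)
      · rw [max_eq_right h, zero_pow hn.ne'] at h1
        calc Real.exp (-τ) * (volume (A ∩ {x | ∀ i, x i ≤ τ})).toReal
            ≤ Real.exp (-τ) * 0 := mul_le_mul_of_nonneg_left h1 (Real.exp_pos _).le
          _ = 0 := mul_zero _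
          _ ≤ _ := le_max_of_le_right zero_le_one
  rw [hKK hA0, hKK hB0, hKK hC0]
  refine pl_one (hmeas A) (hmeas B) (hmeas C) (hnn A) (hnn B) (hnn C) (hbd hA0) (hbd hB0) ?_
  intro s t
  have hbm := PT57.bm (volume : Measure (Fin n → ℝ)) _ _ (isCompact_slice hA hA0 s)
    (isCompact_slice hB hB0 t)
  have hsub : ((1/2 : ℝ) • ((A ∩ {x | ∀ i, x i ≤ s}) + (B ∩ {x | ∀ i, x i ≤ t}))) ⊆
      C ∩ {x | ∀ i, x i ≤ (s + t) / 2} := by
    rintro _ ⟨_, ⟨x, hx, y, hy, rfl⟩, rfl⟩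
    have e : (1/2 : ℝ) • (x + y) = fun i => (x i + y i) / 2 := by
      funext i
      simp only [Pi.smul_apply, Pi.add_apply, smul_eq_mul]
      ring
    simp only at *
    rw [e]
    refine ⟨hABC x hx.1 y hy.1, fun i => ?_⟩
    have h1 := hx.2 i
    have h2 := hy.2 i
    show (x i + y i) / 2 ≤ (s + t) / 2
    linarith
  have h3 : volume (A ∩ {x | ∀ i, x i ≤ s}) * volume (B ∩ {x | ∀ i, x i ≤ t}) ≤
      volume (C ∩ {x | ∀ i, x i ≤ (s + t) / 2}) ^ 2 :=
    hbm.trans (pow_le_pow_left' (measure_mono hsub) 2)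
  have h4 := ENNReal.toReal_mono (ENNReal.pow_ne_top (hfin hC0 _)) h3
  rw [ENNReal.toReal_mul, ENNReal.toReal_pow] at h4
  simp only [hFn]
  have e1 : Real.exp (-s) * Real.exp (-t) = Real.exp (-((s + t) / 2)) ^ 2 := by
    rw [← Real.exp_add, ← Real.exp_nat_mul]
    congr 1
    push_cast
    ring
  calc Real.exp (-s) * (volume (A ∩ {x | ∀ i, x i ≤ s})).toReal *
        (Real.exp (-t) * (volume (B ∩ {x | ∀ i, x i ≤ t})).toReal)
      = (Real.exp (-s) * Real.exp (-t)) * ((volume (A ∩ {x | ∀ i, x i ≤ s})).toReal *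
        (volume (B ∩ {x | ∀ i, x i ≤ t})).toReal) := by ring
    _ ≤ Real.exp (-((s + t) / 2)) ^ 2 *
        (volume (C ∩ {x | ∀ i, x i ≤ (s + t) / 2})).toReal ^ 2 := by
        rw [e1]
        exact mul_le_mul_of_nonneg_left h4 (by positivity)
    _ = _ := by ring

end Pool.GE51
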