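import Pool.Agent.GE63.Defs
import Pool.Agent.GE51.PL

set_option autoImplicit false

/-!
# GE51/Layer: midpoint log-concavity of `Z` by exponential slices
-/

open MeasureTheory Set
open scoped ENNReal

namespace Pool.GE51

open Pool.HB45 Pool.SC45 Pool.GE63

theorem mx_le_iff {N : ℕ} (x : Fin (N + 1) → ℝ) (τ : ℝ) : mx x ≤ τ ↔ ∀ i, x i ≤ τ := by
  unfold mx
  rw [Finset.sup'_le_iff]
  simp

theorem continuous_mx {N : ℕ} : Continuous (mx : (Fin (N + 1) → ℝ) → ℝ) := by
  unfold mx
  exact Continuous.finset_sup'_apply _ fun i _ => continuous_apply i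

theorem lintegral_exp_neg (m : ℝ) :
    ∫⁻ τ : ℝ, (Ici m).indicator (fun τ => ENNReal.ofReal (Real.exp (-τ))) τ =
      ENNReal.ofReal (Real.exp (-m)) := by
  rw [lintegral_indicator measurableSet_Ici]
  rw [← restrict_Ioi_eq_restrict_Ici]
  rw [← ofReal_integral_eq_lintegral_ofReal (integrableOn_exp_neg_Ioi m)
    (Filter.Eventually.of_forall fun _ => (Real.exp_pos _).le), integral_exp_neg_Ioi]

theorem isClosed_DD {N : ℕ} (Q : Rel (N + 1)) (v : ℝ) : IsClosed (DD Q v) := by
  have e : DD Q v = (⋂ a, {x : Fin (N + 1) → ℝ | 0 ≤ x a}) ∩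
      ⋂ a, ⋂ b, ⋂ (_ : Q a b), {x : Fin (N + 1) → ℝ | x a + v ≤ x b} := by
    ext x
    simp [DD]
  rw [e]
  refine IsClosed.inter (isClosed_iInter fun a => isClosed_le continuous_const
    (continuous_apply a)) (isClosed_iInter fun a => isClosed_iInter fun b =>
      isClosed_iInter fun _ => isClosed_le ((continuous_apply a).add continuous_const)
        (continuous_apply b))

/-- layer cake -/
theorem lintegral_mx {N : ℕ} (A : Set (Fin (N + 1) → ℝ)) :
    ∫⁻ x in A, ENNReal.ofReal (Real.exp (-(mx x))) = KK A := by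
  have hm : Measurable (mx : (Fin (N + 1) → ℝ) → ℝ) := continuous_mx.measurable
  calc ∫⁻ x in A, ENNReal.ofReal (Real.exp (-(mx x)))
      = ∫⁻ x in A, ∫⁻ τ : ℝ, (Ici (mx x)).indicator
          (fun τ => ENNReal.ofReal (Real.exp (-τ))) τ := by
        apply lintegral_congr
        intro x
        rw [lintegral_exp_neg]
    _ = ∫⁻ τ : ℝ, ∫⁻ x in A, (Ici (mx x)).indicator
          (fun τ => ENNReal.ofReal (Real.exp (-τ))) τ := by
        apply lintegral_lintegral_swap
        apply Measurable.aemeasurable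
        have h1 : MeasurableSet {p : (Fin (N + 1) → ℝ) × ℝ | mx p.1 ≤ p.2} :=
          measurableSet_le (hm.comp measurable_fst) measurable_snd
        have e : (Function.uncurry fun (x : Fin (N + 1) → ℝ) (τ : ℝ) =>
            (Ici (mx x)).indicator (fun τ => ENNReal.ofReal (Real.exp (-τ))) τ) =
            {p : (Fin (N + 1) → ℝ) × ℝ | mx p.1 ≤ p.2}.indicator
              (fun p => ENNReal.ofReal (Real.exp (-p.2))) := by
          funext p
          obtain ⟨x, τ⟩ := p
          simp only [Function.uncurry, indicator, mem_Ici, mem_ofPred_eq]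
        rw [e]
        refine Measurable.indicator ?_ h1
        exact ENNReal.measurable_ofReal.comp (Real.measurable_exp.comp measurable_snd.neg)
    _ = KK A := by
        unfold KK
        apply lintegral_congr
        intro τ
        have h1 : MeasurableSet {x : Fin (N + 1) → ℝ | ∀ i, x i ≤ τ} := by
          have : {x : Fin (N + 1) → ℝ | ∀ i, x i ≤ τ} = {x | mx x ≤ τ} := by
            ext x; simp [mx_le_iff]
          rw [this]
          exact measurableSet_le hm measurable_const
        have e : (fun x : Fin (N + 1) → ℝ => (Ici (mx x)).indicator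
            (fun τ => ENNReal.ofReal (Real.exp (-τ))) τ) =
            {x : Fin (N + 1) → ℝ | ∀ i, x i ≤ τ}.indicator
              (fun _ => ENNReal.ofReal (Real.exp (-τ))) := by
          funext x
          simp only [indicator, mem_Ici, mem_ofPred_eq, mx_le_iff]
        rw [e, lintegral_indicator h1, lintegral_const, Measure.restrict_restrict h1,
          Measure.restrict_apply_univ, inter_comm]

theorem Z_eq {N : ℕ} (Q : Rel (N + 1)) (v : ℝ) : Z Q v = KK (DD Q v) :=
  lintegral_mx _

theorem Z_mid' {N : ℕ} (Q : Rel (N + 1)) (v v' : ℝ) :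
    Z Q v * Z Q v' ≤ Z Q ((v + v') / 2) ^ 2 := by
  rw [Z_eq, Z_eq, Z_eq]
  refine KK_mid N.succ_pos (isClosed_DD Q v) (isClosed_DD Q v') (isClosed_DD Q _)
    (fun x hx => hx.1) (fun x hx => hx.1) (fun x hx => hx.1) ?_
  intro x hx y hy
  refine ⟨fun a => ?_, fun a b hab => ?_⟩
  · have h1 := hx.1 a
    have h2 := hy.1 a
    show 0 ≤ (x a + y a) / 2
    linarith
  · have h1 := hx.2 a b hab
    have h2 := hy.2 a b hab
    show (x a + y a) / 2 + (v + v') / 2 ≤ (x b + y b) / 2
    linarith

theorem KK_lt_top {n : ℕ} (hn : 0 < n) {A : Set (Fin n → ℝ)} (hA0 : ∀ x ∈ A, ∀ i, 0 ≤ x i) :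
    KK A < ⊤ := by
  calc KK A ≤ ∫⁻ τ : ℝ, (Ioi (0:ℝ)).indicator
        (fun τ => ENNReal.ofReal (Real.exp (-τ) * τ ^ n)) τ := by
        unfold KK
        apply lintegral_mono
        intro τ
        dsimp only
        by_cases h : 0 < τ
        · rw [indicator_of_mem (mem_Ioi.mpr h), ENNReal.ofReal_mul (Real.exp_pos _).le,
            ENNReal.ofReal_pow h.le]
          exact mul_le_mul_right (vol_slice_le hA0 τ) _
        · have h2 := vol_slice_le hA0 τ
          rw [ENNReal.ofReal_of_nonpos (not_lt.mp h), zero_pow hn.ne'] at h2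
          rw [nonpos_iff_eq_zero.mp h2, mul_zero]
          exact bot_le
    _ = ∫⁻ τ in Ioi (0:ℝ), ENNReal.ofReal (Real.exp (-τ) * τ ^ n) :=
        lintegral_indicator measurableSet_Ioi _
    _ < ⊤ := by
        have h := Real.GammaIntegral_convergent (s := (n + 1 : ℝ)) (by positivity)
        have h1 : IntegrableOn (fun τ : ℝ => Real.exp (-τ) * τ ^ n) (Ioi 0) := by
          refine h.congr_fun (fun x hx => ?_) measurableSet_Ioi
          simp only [add_sub_cancel_right]
          rw [Real.rpow_natCast]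
        exact h1.lintegral_lt_top

theorem Z_lt_top' {N : ℕ} (Q : Rel (N + 1)) (v : ℝ) : Z Q v < ⊤ := by
  rw [Z_eq]
  exact KK_lt_top N.succ_pos fun x hx => hx.1

end Pool.GE51
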